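import Mathlib

set_option autoImplicit false

open Set Filter Topology

namespace Pool.Agent.MP_9991fb_an

/-- Data of a one-dimensional extension: `n` vectors (given by approximating finite
combinations) and a function `N` meant to be the norm of the extended space. -/
structure Dat : Type where
  n : ℕ
  a : Fin n → ℕ → (ℕ →₀ ℝ)
  N : (Fin n → ℝ) → ℝ → ℝ

/-- The generators. -/
inductive Idx : Type
  | e : Set ℝ → Idx
  | y : Idx
  | ext : Dat → (ℕ → Idx) → Idx

/-- The constraint at a node. -/
def Constr (D : Dat) (f : ℕ → ℝ) (r : ℝ) : Prop :=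
  ∀ (α : Fin D.n → ℝ) (t : ℝ) (m : ℕ),
    |∑ k, α k * ((D.a k m).sum fun l x => x * f l) + t * r| ≤
      D.N α t + (∑ k, |α k|) * (1 / 2) ^ m

/-- The constraint on the base. -/
def BaseOK (F : Idx → ℝ) : Prop :=
  |F .y| ≤ 1 ∧ ∀ s : Finset (Set ℝ), ∑ i ∈ s, |F (.e i)| ≤ 1

def Her : Idx → (Idx → ℝ) → Prop
  | .e _, _ => True
  | .y, _ => True
  | .ext D c, F =>
      (∀ l, Her (c l) F) ∧
      ((∀ G, BaseOK G → (∀ l, Her (c l) G) → ∃ r, Constr D (fun l => G (c l)) r) →
        Constr D (fun l => F (c l)) (F (.ext D c))) ∧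
      (¬ (∀ G, BaseOK G → (∀ l, Her (c l) G) → ∃ r, Constr D (fun l => G (c l)) r) →
        F (.ext D c) = 0)

def Good (D : Dat) (c : ℕ → Idx) : Prop :=
  ∀ G, BaseOK G → (∀ l, Her (c l) G) → ∃ r, Constr D (fun l => G (c l)) r

theorem her_ext (D : Dat) (c : ℕ → Idx) (F : Idx → ℝ) :
    Her (.ext D c) F ↔ (∀ l, Her (c l) F) ∧
      (Good D c → Constr D (fun l => F (c l)) (F (.ext D c))) ∧
      (¬ Good D c → F (.ext D c) = 0) := by
  rfl

/-! ### Hereditary supports -/

inductive Child : Idx → Idx → Prop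
  | mk (D : Dat) (c : ℕ → Idx) (l : ℕ) : Child (c l) (.ext D c)

theorem child_wf : WellFounded Child := by
  refine ⟨fun d => ?_⟩
  induction d with
  | e i => exact ⟨_, fun x hx => by cases hx⟩
  | y => exact ⟨_, fun x hx => by cases hx⟩
  | ext D c ih => exact ⟨_, fun x hx => by cases hx; exact ih _⟩

def Sub (d : Idx) : Set Idx := {x | Relation.ReflTransGen Child x d}

theorem self_mem_sub (d : Idx) : d ∈ Sub d := Relation.ReflTransGen.refl

theorem sub_ext (D : Dat) (c : ℕ → Idx) : Sub (.ext D c) = {.ext D c} ∪ ⋃ l, Sub (c l) := by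
  ext x
  simp only [Sub, mem_ofPred_eq, mem_union, mem_singleton_iff, mem_iUnion]
  constructor
  · intro h
    rcases Relation.ReflTransGen.cases_tail h with h | ⟨z, hz, hc⟩
    · exact Or.inl h.symm
    · cases hc with
      | mk D c l => exact Or.inr ⟨l, hz⟩
  · rintro (h | ⟨l, h⟩)
    · rw [h]
    · exact h.tail (Child.mk D c l)

theorem sub_countable (d : Idx) : (Sub d).Countable := by
  induction d with
  | e i =>
    refine (countable_singleton (Idx.e i)).mono ?_
    intro x hx
    rcases Relation.ReflTransGen.cases_tail hx with h | ⟨z, hz, hc⟩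
    · exact h.symm
    · cases hc
  | y =>
    refine (countable_singleton (Idx.y)).mono ?_
    intro x hx
    rcases Relation.ReflTransGen.cases_tail hx with h | ⟨z, hz, hc⟩
    · exact h.symm
    · cases hc
  | ext D c ih =>
    rw [sub_ext]
    exact (countable_singleton _).union (countable_iUnion ih)

theorem ext_notMem_sub (D : Dat) (c : ℕ → Idx) (l : ℕ) : Idx.ext D c ∉ Sub (c l) := by
  intro h
  have h1 : Relation.TransGen Child (.ext D c) (.ext D c) :=
    Relation.TransGen.tail' h (Child.mk D c l)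
  exact (child_wf.transGen).irrefl.irrefl _ h1

/-- A set of nodes closed under children. -/
def Hered (A : Set Idx) : Prop := ∀ D c, Idx.ext D c ∈ A → ∀ l, c l ∈ A

theorem hered_sub (d : Idx) : Hered (Sub d) := by
  intro D c h l
  exact Relation.ReflTransGen.head (Child.mk D c l) h

theorem hered_iUnion {ι : Sort*} (A : ι → Set Idx) (h : ∀ i, Hered (A i)) :
    Hered (⋃ i, A i) := by
  intro D c hd l
  rw [mem_iUnion] at hd ⊢
  obtain ⟨i, hi⟩ := hd
  exact ⟨i, h i D c hi l⟩

theorem hered_union {A B : Set Idx} (hA : Hered A) (hB : Hered B) : Hered (A ∪ B) := by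
  intro D c hd l
  rcases hd with hd | hd
  · exact Or.inl (hA D c hd l)
  · exact Or.inr (hB D c hd l)

theorem her_congr {A : Set Idx} (hA : Hered A) {F G : Idx → ℝ} (h : ∀ d ∈ A, F d = G d) :
    ∀ d ∈ A, Her d F → Her d G := by
  intro d
  induction d with
  | e i => intro _ _; trivial
  | y => intro _ _; trivial
  | ext D c ih =>
    intro hd hF
    rw [her_ext] at hF ⊢
    have hc : (fun l => F (c l)) = fun l => G (c l) := funext fun l => h _ (hA D c hd l)
    rw [← h _ hd, ← hc]
    exact ⟨fun l => ih l (hA D c hd l) (hF.1 l), hF.2⟩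

open Classical in
noncomputable def extend (A : Set Idx) (F₀ : Idx → ℝ) : Idx → ℝ
  | .e i => F₀ (.e i)
  | .y => F₀ .y
  | .ext D c =>
      if Idx.ext D c ∈ A then F₀ (.ext D c)
      else if h : ∃ r, Constr D (fun l => extend A F₀ (c l)) r then
        (if Good D c then h.choose else 0) else 0

theorem extend_of_mem (A : Set Idx) (F₀ : Idx → ℝ) (d : Idx) (hd : d ∈ A) :
    extend A F₀ d = F₀ d := by
  cases d with
  | e i => rfl
  | y => rfl
  | ext D c => rw [extend, if_pos hd]

theorem extend_e (A : Set Idx) (F₀ : Idx → ℝ) (i : Set ℝ) :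
    extend A F₀ (.e i) = F₀ (.e i) := rfl

theorem extend_y (A : Set Idx) (F₀ : Idx → ℝ) :
    extend A F₀ .y = F₀ .y := rfl

theorem baseOK_extend (A : Set Idx) (F₀ : Idx → ℝ) (h : BaseOK F₀) : BaseOK (extend A F₀) := h

theorem her_extend {A : Set Idx} (hA : Hered A) {F₀ : Idx → ℝ} (hb : BaseOK F₀)
    (h0 : ∀ d ∈ A, Her d F₀) : ∀ d, Her d (extend A F₀) := by
  intro d
  induction d with
  | e i => trivial
  | y => trivial
  | ext D c ih =>
    by_cases hd : Idx.ext D c ∈ A
    · exact her_congr hA (fun d hd => (extend_of_mem A F₀ d hd).symm) _ hd (h0 _ hd)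
    · rw [her_ext]
      refine ⟨ih, fun hg => ?_, fun hg => ?_⟩
      · have hr : ∃ r, Constr D (fun l => extend A F₀ (c l)) r :=
          hg _ (baseOK_extend A F₀ hb) ih
        have : extend A F₀ (.ext D c) = hr.choose := by
          rw [extend, if_neg hd, dif_pos hr, if_pos hg]
        rw [this]
        exact hr.choose_spec
      · rw [extend, if_neg hd]
        split_ifs <;> rfl

/-! ### The compact convex set `K` -/

def K : Set (Idx → ℝ) := {F | BaseOK F ∧ ∀ d, Her d F}

theorem extend_mem_K {A : Set Idx} (hA : Hered A) {F₀ : Idx → ℝ} (hb : BaseOK F₀)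
    (h0 : ∀ d ∈ A, Her d F₀) : extend A F₀ ∈ K :=
  ⟨baseOK_extend A F₀ hb, her_extend hA hb h0⟩

/-- Any base functional extends. -/
theorem exists_K_base {F₀ : Idx → ℝ} (hb : BaseOK F₀) :
    ∃ F ∈ K, F .y = F₀ .y ∧ ∀ i, F (.e i) = F₀ (.e i) :=
  ⟨extend ∅ F₀, extend_mem_K (fun _ _ h => h.elim) hb (fun _ h => h.elim), rfl, fun _ => rfl⟩

theorem baseOK_zero : BaseOK (fun _ => 0) := by
  constructor
  · simp
  · intro s; simp

theorem K_nonempty : K.Nonempty :=
  let ⟨F, hF, _⟩ := exists_K_base baseOK_zero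
  ⟨F, hF⟩

theorem baseOK_comb {F G : Idx → ℝ} (hF : BaseOK F) (hG : BaseOK G) {a b : ℝ}
    (hab : |a| + |b| ≤ 1) : BaseOK (fun d => a * F d + b * G d) := by
  constructor
  · calc |a * F .y + b * G .y| ≤ |a * F .y| + |b * G .y| := abs_add_le _ _
      _ = |a| * |F .y| + |b| * |G .y| := by rw [abs_mul, abs_mul]
      _ ≤ |a| * 1 + |b| * 1 := by
          gcongr
          · exact hF.1
          · exact hG.1
      _ ≤ 1 := by linarith
  · intro s
    calc ∑ i ∈ s, |a * F (.e i) + b * G (.e i)|
        ≤ ∑ i ∈ s, (|a| * |F (.e i)| + |b| * |G (.e i)|) := by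
          refine Finset.sum_le_sum fun i _ => ?_
          rw [← abs_mul, ← abs_mul]
          exact abs_add_le _ _
      _ = |a| * ∑ i ∈ s, |F (.e i)| + |b| * ∑ i ∈ s, |G (.e i)| := by
          rw [Finset.sum_add_distrib, Finset.mul_sum, Finset.mul_sum]
      _ ≤ |a| * 1 + |b| * 1 := by
          gcongr
          · exact hF.2 s
          · exact hG.2 s
      _ ≤ 1 := by linarith

theorem constr_comb {D : Dat} {f g : ℕ → ℝ} {r s : ℝ} (hf : Constr D f r) (hg : Constr D g s)
    {a b : ℝ} (hab : |a| + |b| ≤ 1) :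
    Constr D (fun l => a * f l + b * g l) (a * r + b * s) := by
  intro α t m
  have h1 := hf α t m
  have h2 := hg α t m
  have h0 : 0 ≤ D.N α t + (∑ k, |α k|) * (1 / 2) ^ m := (abs_nonneg _).trans h1
  have heq : ∑ k, α k * ((D.a k m).sum fun l x => x * (a * f l + b * g l)) + t * (a * r + b * s)
      = a * (∑ k, α k * ((D.a k m).sum fun l x => x * f l) + t * r) +
        b * (∑ k, α k * ((D.a k m).sum fun l x => x * g l) + t * s) := by
    have h5 : ∀ k, α k * ((D.a k m).sum fun l x => x * (a * f l + b * g l)) =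
        a * (α k * ((D.a k m).sum fun l x => x * f l)) +
          b * (α k * ((D.a k m).sum fun l x => x * g l)) := by
      intro k
      have : ((D.a k m).sum fun l x => x * (a * f l + b * g l)) =
          a * ((D.a k m).sum fun l x => x * f l) + b * ((D.a k m).sum fun l x => x * g l) := by
        rw [Finsupp.sum, Finsupp.sum, Finsupp.sum, Finset.mul_sum, Finset.mul_sum,
          ← Finset.sum_add_distrib]
        refine Finset.sum_congr rfl fun l _ => ?_
        ring
      rw [this]
      ring
    rw [Finset.sum_congr rfl fun k _ => h5 k, Finset.sum_add_distrib, ← Finset.mul_sum,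
      ← Finset.mul_sum]
    ring
  rw [heq]
  calc _ ≤ |a * (∑ k, α k * ((D.a k m).sum fun l x => x * f l) + t * r)| +
        |b * (∑ k, α k * ((D.a k m).sum fun l x => x * g l) + t * s)| := abs_add_le _ _
    _ ≤ |a| * (D.N α t + (∑ k, |α k|) * (1 / 2) ^ m) +
        |b| * (D.N α t + (∑ k, |α k|) * (1 / 2) ^ m) := by
        rw [abs_mul, abs_mul]
        gcongr
    _ = (|a| + |b|) * (D.N α t + (∑ k, |α k|) * (1 / 2) ^ m) := by ring
    _ ≤ 1 * (D.N α t + (∑ k, |α k|) * (1 / 2) ^ m) := by gcongr
    _ = _ := one_mul _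

theorem her_comb {F G : Idx → ℝ} {a b : ℝ} (hab : |a| + |b| ≤ 1) (d : Idx) :
    Her d F → Her d G → Her d (fun d => a * F d + b * G d) := by
  induction d with
  | e i => intro _ _; trivial
  | y => intro _ _; trivial
  | ext D c ih =>
    intro hF hG
    rw [her_ext] at *
    refine ⟨fun l => ih l (hF.1 l) (hG.1 l), fun hg => ?_, fun hg => ?_⟩
    · exact constr_comb (hF.2.1 hg) (hG.2.1 hg) hab
    · simp only [hF.2.2 hg, hG.2.2 hg]
      ring

theorem K_comb {F G : Idx → ℝ} (hF : F ∈ K) (hG : G ∈ K) {a b : ℝ} (hab : |a| + |b| ≤ 1) :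
    (fun d => a * F d + b * G d) ∈ K :=
  ⟨baseOK_comb hF.1 hG.1 hab, fun d => her_comb hab d (hF.2 d) (hG.2 d)⟩

theorem isClosed_baseOK : IsClosed {F | BaseOK F} := by
  have : {F | BaseOK F} = {F : Idx → ℝ | |F .y| ≤ 1} ∩
      ⋂ s : Finset (Set ℝ), {F : Idx → ℝ | ∑ i ∈ s, |F (.e i)| ≤ 1} := by
    ext F; simp [BaseOK]
  rw [this]
  refine IsClosed.inter ?_ (isClosed_iInter fun s => ?_)
  · exact isClosed_le (by fun_prop) continuous_const
  · exact isClosed_le (by fun_prop) continuous_const

theorem isClosed_her (d : Idx) : IsClosed {F | Her d F} := by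
  induction d with
  | e i => simp [Her]
  | y => simp [Her]
  | ext D c ih =>
    have : {F | Her (.ext D c) F} = (⋂ l, {F | Her (c l) F}) ∩
        ({F | Good D c → Constr D (fun l => F (c l)) (F (.ext D c))} ∩
        {F | ¬ Good D c → F (.ext D c) = 0}) := by
      ext F
      simp only [mem_ofPred_eq, her_ext, mem_inter_iff, mem_iInter]
    rw [this]
    refine (isClosed_iInter ih).inter (IsClosed.inter ?_ ?_)
    · by_cases hg : Good D c
      · simp only [hg, forall_const, Constr, ofPred_forall]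
        refine isClosed_iInter fun α => isClosed_iInter fun t => isClosed_iInter fun m => ?_
        refine isClosed_le ?_ continuous_const
        simp only [Finsupp.sum]
        fun_prop
      · simp [hg]
    · by_cases hg : Good D c
      · simp [hg]
      · simp only [hg, not_false_eq_true, forall_const]
        exact isClosed_eq (by fun_prop) continuous_const

/-- Bounds for coordinates. -/
noncomputable def bd : Idx → ℝ
  | .e _ => 1
  | .y => 1
  | .ext D _ => |D.N 0 1|

theorem abs_le_bd {F : Idx → ℝ} (hF : F ∈ K) (d : Idx) : |F d| ≤ bd d := by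
  cases d with
  | e i => simpa [bd] using hF.1.2 {i}
  | y => exact hF.1.1
  | ext D c =>
    have h := hF.2 (.ext D c)
    rw [her_ext] at h
    by_cases hg : Good D c
    · have h1 := h.2.1 hg 0 1 0
      simp only [Pi.zero_apply, zero_mul, Finset.sum_const_zero, one_mul, zero_add, abs_zero,
        pow_zero, mul_one, add_zero] at h1
      exact h1.trans (le_abs_self _)
    · rw [h.2.2 hg]
      simp [bd]

theorem isCompact_K : IsCompact K := by
  have hcl : IsClosed K := by
    have : K = {F | BaseOK F} ∩ ⋂ d, {F | Her d F} := by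
      ext F; simp [K]
    rw [this]
    exact isClosed_baseOK.inter (isClosed_iInter isClosed_her)
  refine (isCompact_univ_pi (fun d => isCompact_Icc (a := - bd d) (b := bd d))).of_isClosed_subset
    hcl ?_
  intro F hF d _
  exact abs_le.mp (abs_le_bd hF d)

instance : CompactSpace K := isCompact_iff_compactSpace.mp isCompact_K

instance : Nonempty K := K_nonempty.to_subtype

end Pool.Agent.MP_9991fb_an
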