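import Mathlib

set_option autoImplicit false

open Set Filter Topology Cardinal

namespace Pool.Agent.MP_9991fb_an

/-- Codes: a type of cardinality continuum. -/
abbrev Code : Type := (ℕ → ℝ) × (ℕ → Set ℕ) × (ℕ → ℝ)

theorem mk_code : #(Code × ℕ) ≤ 𝔠 := by
  simp [Cardinal.mk_pi, Cardinal.mk_real]

open Classical in
/-- The function attached to a code. -/
noncomputable def dec {α : Type} (ι : α → Set ℝ) (q : Code) (x : α) : ℝ :=
  if h : ∃ n, q.2.1 n = {k | q.1 k ∈ ι x} then q.2.2 (Nat.find h) else 0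

/-- Every countable function on a subset of the power set of the continuum is
the restriction of one of continuum many functions. -/
theorem exists_code {α : Type} (ι : α → Set ℝ) {A : Set α} (hA : A.Countable)
    (hne : A.Nonempty) (hinj : InjOn ι A) (f : α → ℝ) : ∃ q : Code, ∀ x ∈ A, dec ι q x = f x := by
  obtain ⟨a, rfl⟩ := hA.exists_eq_range hne
  have hsep : ∀ m n : ℕ, ∃ b : ℝ, a m ≠ a n → ¬ (b ∈ ι (a m) ↔ b ∈ ι (a n)) := by
    intro m n
    by_cases h : a m = a n
    · exact ⟨0, fun h' => (h' h).elim⟩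
    · have : ι (a m) ≠ ι (a n) := fun h' => h (hinj ⟨m, rfl⟩ ⟨n, rfl⟩ h')
      have h2 : ∃ b, ¬ (b ∈ ι (a m) ↔ b ∈ ι (a n)) := by
        by_contra hcon
        push Not at hcon
        exact this (Set.ext hcon)
      obtain ⟨b, hb⟩ := h2
      exact ⟨b, fun _ => hb⟩
  choose B hB using hsep
  refine ⟨⟨fun k => B k.unpair.1 k.unpair.2, fun n => {k | B k.unpair.1 k.unpair.2 ∈ ι (a n)},
    fun n => f (a n)⟩, ?_⟩
  rintro _ ⟨m, rfl⟩
  have hex : ∃ n, {k | B (Nat.unpair k).1 (Nat.unpair k).2 ∈ ι (a n)} =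
      {k | B (Nat.unpair k).1 (Nat.unpair k).2 ∈ ι (a m)} := ⟨m, rfl⟩
  rw [dec, dif_pos hex]
  have hn := Nat.find_spec hex
  set n := Nat.find hex
  by_cases h : a n = a m
  · simp only [h]
  · exfalso
    apply hB n m h
    have h2 := Set.ext_iff.mp hn (Nat.pair n m)
    simpa using h2

end Pool.Agent.MP_9991fb_an
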