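import Pool.Agent.MP_9991fb_an.Space

set_option autoImplicit false

open Set Filter Topology

namespace Pool.Agent.MP_9991fb_an

theorem K_neg {F : Idx → ℝ} (hF : F ∈ K) : (fun d => - F d) ∈ K := by
  have := K_comb hF hF (a := -1) (b := 0) (by norm_num)
  simpa using this

/-- Realising prescribed values of finitely many vectors of `X` by points of `K`. -/
theorem exists_realize {n : ℕ} (s : Fin n → C(K, ℝ)) (hs : ∀ k, s k ∈ X)
    (g : (Fin n → ℝ) →ₗ[ℝ] ℝ) (hg : ∀ α, g α ≤ ‖∑ k, α k • s k‖) :
    ∃ F : K, ∀ k, s k F = g (Pi.single k 1) := by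
  let ev : K → (Fin n → ℝ) := fun F k => s k F
  have hev : Continuous ev := by
    refine continuous_pi fun k => (s k).continuous
  have hcomp : IsCompact (range ev) := isCompact_range hev
  have hconv : Convex ℝ (range ev) := by
    rintro _ ⟨F, rfl⟩ _ ⟨G, rfl⟩ a b ha hb hab
    have hm := K_comb F.2 G.2 (a := a) (b := b) (by
      rw [abs_of_nonneg ha, abs_of_nonneg hb, hab])
    refine ⟨⟨_, hm⟩, ?_⟩
    funext k
    simp only [Pi.add_apply, Pi.smul_apply, smul_eq_mul, ev]
    exact X_lin (hs k) F G ⟨_, hm⟩ a b (fun d => rfl)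
  by_contra hcon
  push Not at hcon
  have hnot : (fun k => g (Pi.single k 1)) ∉ range ev := by
    rintro ⟨F, hF⟩
    obtain ⟨k, hk⟩ := hcon F
    exact hk (congrFun hF k)
  obtain ⟨f, u, hfu, huf⟩ := geometric_hahn_banach_closed_point hconv hcomp.isClosed hnot
  have hf : ∀ β : Fin n → ℝ, f β = ∑ k, β k * f (Pi.single k 1) := by
    intro β
    conv_lhs => rw [← Finset.univ_sum_single β]
    rw [map_sum]
    refine Finset.sum_congr rfl fun k _ => ?_
    have : (Pi.single k (β k) : Fin n → ℝ) = β k • Pi.single k 1 := by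
      rw [← Pi.single_smul]; simp
    rw [this, map_smul, smul_eq_mul]
  have hu0 : ∀ F : K, |∑ k, f (Pi.single k 1) * s k F| ≤ u := by
    intro F
    rw [abs_le]
    have h1 := hfu _ ⟨F, rfl⟩
    rw [hf] at h1
    have h2 := hfu _ ⟨⟨_, K_neg F.2⟩, rfl⟩
    rw [hf] at h2
    have h3 : ∀ k, s k ⟨_, K_neg F.2⟩ = - s k F := by
      intro k
      have := X_lin (hs k) F F ⟨_, K_neg F.2⟩ (-1) 0 (fun d => by simp)
      simpa using this
    simp only [ev, h3] at h1 h2
    have h4 : ∑ k, f (Pi.single k 1) * s k F = ∑ k, s k F * f (Pi.single k 1) :=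
      Finset.sum_congr rfl fun k _ => mul_comm _ _
    have h5 : ∑ k, -s k F * f (Pi.single k 1) = - ∑ k, s k F * f (Pi.single k 1) := by
      rw [← Finset.sum_neg_distrib]
      exact Finset.sum_congr rfl fun k _ => by ring
    rw [h5] at h2
    rw [h4]
    constructor <;> linarith
  have hnorm : ‖∑ k, f (Pi.single k 1) • s k‖ ≤ u := by
    refine (ContinuousMap.norm_le _ ?_).mpr fun F => ?_
    · exact (abs_nonneg _).trans (hu0 (Classical.arbitrary K))
    · rw [ContinuousMap.sum_apply]
      simpa using hu0 F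
  have h1 := hg (fun k => f (Pi.single k 1))
  have h2 : g (fun k => f (Pi.single k 1)) = f (fun k => g (Pi.single k 1)) := by
    rw [hf]
    conv_lhs => rw [← Finset.univ_sum_single (fun k => f (Pi.single k 1))]
    rw [map_sum]
    refine Finset.sum_congr rfl fun k _ => ?_
    have : (Pi.single k (f (Pi.single k 1)) : Fin n → ℝ) =
        f (Pi.single k 1) • Pi.single k 1 := by
      rw [← Pi.single_smul]; simp
    rw [this, map_smul, smul_eq_mul, mul_comm]
  rw [h2] at h1
  linarith

/-- Every one-dimensional extension is realised by a node. -/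
theorem exists_node {n : ℕ} (s : Fin n → C(K, ℝ)) (hs : ∀ k, s k ∈ X)
    (p : Seminorm ℝ ((Fin n → ℝ) × ℝ)) (hp : ∀ α, p (α, 0) = ‖∑ k, α k • s k‖) :
    ∃ d : Idx, ∀ α t, ‖∑ k, α k • s k + t • v d‖ = p (α, t) := by
  obtain ⟨c, a, ha⟩ := exists_rep s hs
  let D : Dat := ⟨n, a, fun α t => p (α, t)⟩
  have hsum : ∀ (α : Fin n → ℝ) (t : ℝ) (d : Idx) (F : K),
      (∑ k, α k • s k + t • v d) F = ∑ k, α k * s k F + t * F.1 d := by
    intro α t d F
    simp [ContinuousMap.sum_apply, v_apply]
  -- from exact to approximate constraint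
  have hkey : ∀ (F : K) (r : ℝ), (∀ α t, |∑ k, α k * s k F + t * r| ≤ p (α, t)) →
      Constr D (fun l => F.1 (c l)) r := by
    intro F r h α t m
    have h1 : |∑ k, α k * ((a k m).sum fun l x => x * F.1 (c l)) - ∑ k, α k * s k F| ≤
        (∑ k, |α k|) * (1 / 2) ^ m := by
      rw [← Finset.sum_sub_distrib, Finset.sum_mul]
      refine (Finset.abs_sum_le_sum_abs _ _).trans (Finset.sum_le_sum fun k _ => ?_)
      rw [← mul_sub, abs_mul]
      exact mul_le_mul_of_nonneg_left (ha k m F) (abs_nonneg _)
    have h2 := h α t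
    change |∑ k, α k * ((a k m).sum fun l x => x * F.1 (c l)) + t * r| ≤
      p (α, t) + (∑ k, |α k|) * (1 / 2) ^ m
    have e : ∑ k, α k * ((a k m).sum fun l x => x * F.1 (c l)) + t * r =
      (∑ k, α k * s k F + t * r) +
      (∑ k, α k * ((a k m).sum fun l x => x * F.1 (c l)) - ∑ k, α k * s k F) := by ring
    rw [e]
    exact (abs_add_le _ _).trans (add_le_add h2 h1)
  have hgood : Good D c := by
    intro G hG hGc
    have hA : Hered (⋃ l, Sub (c l)) := hered_iUnion _ fun l => hered_sub _
    have hGA : ∀ d ∈ ⋃ l, Sub (c l), Her d G := by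
      -- `Her` passes to descendants
      have hdesc : ∀ d e : Idx, e ∈ Sub d → Her d G → Her e G := by
        intro d
        induction d with
        | e i =>
          intro e he h
          rcases Relation.ReflTransGen.cases_tail he with h1 | ⟨z, hz, hc⟩
          · rw [← h1]; exact h
          · cases hc
        | y =>
          intro e he h
          rcases Relation.ReflTransGen.cases_tail he with h1 | ⟨z, hz, hc⟩
          · rw [← h1]; exact h
          · cases hc
        | ext D c ih =>
          intro e he h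
          rw [sub_ext] at he
          rcases he with he | he
          · rw [mem_singleton_iff.mp he]; exact h
          · obtain ⟨l, hl⟩ := mem_iUnion.mp he
            exact ih l e hl (((her_ext D c G).mp h).1 l)
      intro d hd
      obtain ⟨l, hl⟩ := mem_iUnion.mp hd
      exact hdesc _ _ hl (hGc l)
    let F : K := ⟨extend (⋃ l, Sub (c l)) G, extend_mem_K hA hG hGA⟩
    have hFG : ∀ l, F.1 (c l) = G (c l) := fun l =>
      extend_of_mem _ _ _ (mem_iUnion.2 ⟨l, self_mem_sub _⟩)
    let L : (Fin n → ℝ) →ₗ[ℝ] ℝ :=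
      { toFun := fun α => ∑ k, α k * s k F
        map_add' := fun α β => by simp [add_mul, Finset.sum_add_distrib]
        map_smul' := fun r α => by simp [Finset.mul_sum, mul_assoc] }
    obtain ⟨r, hr⟩ := ext_one p L (by
      intro α
      rw [hp]
      have := (le_abs_self _).trans (ContinuousMap.norm_coe_le_norm (∑ k, α k • s k) F)
      change ∑ k, α k * s k F ≤ _
      simpa [ContinuousMap.sum_apply] using this)
    refine ⟨r, ?_⟩
    have := hkey F r (fun α t => hr α t)
    simpa only [hFG] using this
  refine ⟨Idx.ext D c, fun α t => ?_⟩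
  have hc2 : ∀ F G : K, (∀ l, F.1 (c l) = G.1 (c l)) → ∀ k, s k F = s k G := by
    intro F G hFG k
    have h2 : ∀ m : ℕ, |s k F - s k G| ≤ 2 * (1 / 2) ^ m := by
      intro m
      have hF := ha k m F
      have hG := ha k m G
      have : ((a k m).sum fun l x => x * F.1 (c l)) = (a k m).sum fun l x => x * G.1 (c l) :=
        Finsupp.sum_congr fun l _ => by rw [hFG l]
      rw [this] at hF
      have e : s k F - s k G = -(((a k m).sum fun l x => x * G.1 (c l)) - s k F) +
        (((a k m).sum fun l x => x * G.1 (c l)) - s k G) := by ring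
      rw [e]
      refine (abs_add_le _ _).trans ?_
      rw [abs_neg]
      linarith
    have h3 : Tendsto (fun m : ℕ => 2 * (1 / 2 : ℝ) ^ m) atTop (𝓝 0) := by
      have := (tendsto_pow_atTop_nhds_zero_of_lt_one (r := (1 / 2 : ℝ)) (by norm_num)
        (by norm_num)).const_mul 2
      simpa using this
    have h4 : |s k F - s k G| ≤ 0 := ge_of_tendsto' h3 h2
    exact sub_eq_zero.mp (abs_eq_zero.mp (le_antisymm h4 (abs_nonneg _)))
  refine le_antisymm ?_ ?_
  · -- upper bound
    refine (ContinuousMap.norm_le _ (apply_nonneg p _)).mpr fun F => ?_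
    rw [hsum, Real.norm_eq_abs]
    have h := F.2.2 (Idx.ext D c)
    rw [her_ext] at h
    have hC := h.2.1 hgood
    -- pass to the limit
    have hlim : Tendsto (fun m : ℕ => |∑ k, α k * ((a k m).sum fun l x => x * F.1 (c l)) +
        t * F.1 (Idx.ext D c)|) atTop (𝓝 |∑ k, α k * s k F + t * F.1 (Idx.ext D c)|) := by
      refine Tendsto.abs (Tendsto.add_const _ ?_)
      refine tendsto_finsetSum _ fun k _ => Tendsto.const_mul _ ?_
      rw [tendsto_iff_norm_sub_tendsto_zero]
      refine squeeze_zero (fun m => norm_nonneg _) (fun m => ha k m F) ?_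
      exact tendsto_pow_atTop_nhds_zero_of_lt_one (by norm_num) (by norm_num)
    have hlim2 : Tendsto (fun m : ℕ => p (α, t) + (∑ k, |α k|) * (1 / 2) ^ m) atTop
        (𝓝 (p (α, t))) := by
      have := ((tendsto_pow_atTop_nhds_zero_of_lt_one (r := (1 / 2 : ℝ)) (by norm_num)
        (by norm_num)).const_mul (∑ k, |α k|)).const_add (p (α, t))
      simpa using this
    exact le_of_tendsto_of_tendsto' hlim hlim2 (fun m => hC α t m)
  · -- lower bound
    obtain ⟨g, hg1, hg2⟩ := exists_support_functional p (α, t)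
    obtain ⟨F, hF⟩ := exists_realize s hs (g ∘ₗ LinearMap.inl ℝ (Fin n → ℝ) ℝ) (by
      intro β
      rw [← hp β]
      exact hg1 _)
    have hgval : ∀ β (u : ℝ), ∑ k, β k * s k F + u * g (0, 1) = g (β, u) := by
      intro β u
      have h1 : g (β, 0) = ∑ k, β k * s k F := by
        have : g (β, 0) = (g ∘ₗ LinearMap.inl ℝ (Fin n → ℝ) ℝ) β := rfl
        rw [this]
        conv_lhs => rw [← Finset.univ_sum_single β]
        rw [map_sum]
        refine Finset.sum_congr rfl fun k _ => ?_
        have : (Pi.single k (β k) : Fin n → ℝ) = β k • Pi.single k 1 := by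
          rw [← Pi.single_smul]; simp
        rw [this, map_smul, smul_eq_mul, hF k]
      have : ((β, u) : (Fin n → ℝ) × ℝ) = (β, 0) + u • ((0, 1) : (Fin n → ℝ) × ℝ) := by simp
      rw [this, map_add, map_smul, h1, smul_eq_mul]
    have hgabs : ∀ β u, |∑ k, β k * s k F + u * g (0, 1)| ≤ p (β, u) := by
      intro β u
      rw [hgval, abs_le]
      constructor
      · have := hg1 (-(β, u))
        rw [map_neg, map_neg_eq_map] at this
        linarith
      · exact hg1 _
    -- redefine the value at the node
    classical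
    let d := Idx.ext D c
    let G : Idx → ℝ := Function.update F.1 d (g (0, 1))
    have hGc : ∀ l, ∀ x ∈ Sub (c l), F.1 x = G x := by
      intro l x hx
      have : x ≠ d := by
        rintro rfl
        exact ext_notMem_sub D c l hx
      exact (Function.update_of_ne this _ _).symm
    have hbG : BaseOK G := by
      have h1 : G .y = F.1 .y := Function.update_of_ne (by simp [d]) _ _
      have h2 : ∀ i, G (.e i) = F.1 (.e i) := fun i => Function.update_of_ne (by simp [d]) _ _
      constructor
      · rw [h1]; exact F.2.1.1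
      · intro s; simp only [h2]; exact F.2.1.2 s
    have hHl : ∀ l, ∀ x ∈ Sub (c l), Her x G := fun l x hx =>
      her_congr (hered_sub (c l)) (hGc l) x hx (F.2.2 x)
    have hGd : G d = g (0, 1) := Function.update_self _ _ _
    have hGcl : (fun l => G (c l)) = fun l => F.1 (c l) :=
      funext fun l => (hGc l _ (self_mem_sub _)).symm
    have hH : ∀ x ∈ Sub d, Her x G := by
      intro x hx
      have hx' : x ∈ ({Idx.ext D c} ∪ ⋃ l, Sub (c l) : Set Idx) := by
        rw [← sub_ext]; exact hx
      rcases hx' with hx' | hx'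
      · rw [mem_singleton_iff.mp hx', her_ext]
        refine ⟨fun l => hHl l _ (self_mem_sub _), fun _ => ?_, fun h => (h hgood).elim⟩
        have : G (Idx.ext D c) = g (0, 1) := hGd
        rw [this, hGcl]
        exact hkey F _ hgabs
      · obtain ⟨l, hl⟩ := mem_iUnion.mp hx'
        exact hHl l x hl
    let H : K := ⟨extend (Sub d) G, extend_mem_K (hered_sub d) hbG hH⟩
    have hHd : H.1 d = g (0, 1) := by
      rw [← hGd]; exact extend_of_mem _ _ _ (self_mem_sub d)
    have hHc : ∀ l, H.1 (c l) = F.1 (c l) := by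
      intro l
      have h1 : H.1 (c l) = G (c l) := extend_of_mem _ _ _ (by
        change c l ∈ Sub (Idx.ext D c)
        rw [sub_ext]
        exact Or.inr (mem_iUnion.2 ⟨l, self_mem_sub _⟩))
      rw [h1]
      exact congrFun hGcl l
    have hfin : (∑ k, α k • s k + t • v d) H = p (α, t) := by
      rw [hsum, hHd]
      have : ∀ k, s k H = s k F := hc2 H F hHc
      simp only [this]
      rw [hgval, hg2]
    have := ContinuousMap.norm_coe_le_norm (∑ k, α k • s k + t • v d) H
    rw [hfin, Real.norm_eq_abs] at this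
    exact (le_abs_self _).trans this

end Pool.Agent.MP_9991fb_an
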