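import Pool.Agent.MP_9991fb_an.Strong
import Pool.Agent.MP_9991fb_an.Code

set_option autoImplicit false

open Set Filter Topology Cardinal

namespace Pool.Agent.MP_9991fb_an

theorem base_e_le (F : K) (s : Finset (Set ℝ)) (hs : ∅ ∉ s) :
    |F.1 (.e ∅)| + ∑ i ∈ s, |F.1 (.e i)| ≤ 1 := by
  classical
  have := F.2.1.2 (insert ∅ s)
  rwa [Finset.sum_insert hs] at this

/-- The norm inequality transported by an isometry. -/
theorem key_ineq (Φ : X ≃ₗᵢ[ℝ] X)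
    (hΦ : Φ ⟨v (.e ∅), v_mem_X _⟩ = ⟨v .y, v_mem_X _⟩) (F : K) (s : Finset (Set ℝ))
    (hs : ∅ ∉ s) :
    |F.1 .y| + ∑ i ∈ s, |(Φ ⟨v (.e i), v_mem_X _⟩ : X).1 F| ≤ 1 := by
  let z : Set ℝ → X := fun i => Φ ⟨v (.e i), v_mem_X _⟩
  have hsgn : ∀ x : ℝ, ∃ σ : ℝ, |σ| ≤ 1 ∧ σ * x = |x| := by
    intro x
    by_cases hx : 0 ≤ x
    · exact ⟨1, by simp, by rw [one_mul, abs_of_nonneg hx]⟩
    · exact ⟨-1, by simp, by rw [abs_of_neg (not_le.mp hx)]; ring⟩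
  choose σ hσ1 hσ2 using hsgn
  let w : X := σ (F.1 .y) • ⟨v (.e ∅), v_mem_X _⟩ +
    ∑ i ∈ s, σ ((z i).1 F) • (⟨v (.e i), v_mem_X _⟩ : X)
  have hw : ‖w‖ ≤ 1 := by
    change ‖(w : C(K, ℝ))‖ ≤ 1
    refine (ContinuousMap.norm_le _ zero_le_one).mpr fun G => ?_
    have : (w : C(K, ℝ)) G = σ (F.1 .y) * G.1 (.e ∅) +
        ∑ i ∈ s, σ ((z i).1 F) * G.1 (.e i) := by
      simp only [w, Submodule.coe_add, Submodule.coe_smul, Submodule.coe_sum,
        ContinuousMap.add_apply, ContinuousMap.smul_apply, ContinuousMap.sum_apply, smul_eq_mul,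
        v_apply]
    rw [this, Real.norm_eq_abs]
    calc _ ≤ |σ (F.1 .y) * G.1 (.e ∅)| + |∑ i ∈ s, σ ((z i).1 F) * G.1 (.e i)| :=
          abs_add_le _ _
      _ ≤ |G.1 (.e ∅)| + ∑ i ∈ s, |G.1 (.e i)| := by
          refine add_le_add ?_ ((Finset.abs_sum_le_sum_abs _ _).trans
            (Finset.sum_le_sum fun i _ => ?_))
          · rw [abs_mul]
            exact mul_le_of_le_one_left (abs_nonneg _) (hσ1 _)
          · rw [abs_mul]
            exact mul_le_of_le_one_left (abs_nonneg _) (hσ1 _)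
      _ ≤ 1 := base_e_le G s hs
  have hΦw : Φ w = σ (F.1 .y) • ⟨v .y, v_mem_X _⟩ + ∑ i ∈ s, σ ((z i).1 F) • z i := by
    change Φ.toLinearEquiv.toLinearMap w = _
    rw [map_add, map_sum, map_smul]
    congr 1
    · exact congrArg _ hΦ
    · exact Finset.sum_congr rfl fun i _ => Φ.toLinearEquiv.toLinearMap.map_smul _ _
  have h1 : ((Φ w : X) : C(K, ℝ)) F = |F.1 .y| + ∑ i ∈ s, |(z i).1 F| := by
    rw [hΦw]
    simp only [Submodule.coe_add, Submodule.coe_smul, Submodule.coe_sum,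
        ContinuousMap.add_apply, ContinuousMap.smul_apply, ContinuousMap.sum_apply, smul_eq_mul,
        v_apply]
    rw [hσ2]
    congr 1
    exact Finset.sum_congr rfl fun i _ => hσ2 _
  have h2 : |((Φ w : X) : C(K, ℝ)) F| ≤ ‖Φ w‖ :=
    ContinuousMap.norm_coe_le_norm ((Φ w : X) : C(K, ℝ)) F
  rw [Φ.norm_map] at h2
  calc _ = ((Φ w : X) : C(K, ℝ)) F := h1.symm
    _ ≤ |((Φ w : X) : C(K, ℝ)) F| := le_abs_self _
    _ ≤ ‖w‖ := h2
    _ ≤ 1 := hw

/-- Each `z i` is nonzero at some point vanishing on all `e j`. -/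
theorem exists_point (Φ : X ≃ₗᵢ[ℝ] X)
    (hΦ : Φ ⟨v (.e ∅), v_mem_X _⟩ = ⟨v .y, v_mem_X _⟩) (i : Set ℝ) (hi : i ≠ ∅) :
    ∃ F : K, (∀ j, F.1 (.e j) = 0) ∧ (Φ ⟨v (.e i), v_mem_X _⟩ : X).1 F ≠ 0 := by
  by_contra hcon
  push Not at hcon
  let z : X := Φ ⟨v (.e i), v_mem_X _⟩
  have hz : z ∈ (⊤ : Submodule ℝ X) := trivial
  have h1 : ∀ F : K, |F.1 .y| = 1 → z.1 F = 0 := by
    intro F hF
    have := key_ineq Φ hΦ F {i} (by simpa using hi.symm)
    rw [hF, Finset.sum_singleton] at this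
    have h2 : |z.1 F| ≤ 0 := by linarith
    exact abs_eq_zero.mp (le_antisymm h2 (abs_nonneg _))
  have hzero : z.1 = 0 := by
    ext F
    obtain ⟨F', hF', hF'y, hF'e⟩ := exists_K_base (F₀ := fun d => match d with
      | .y => F.1 .y
      | _ => 0) ⟨F.2.1.1, fun s => by simp⟩
    obtain ⟨H, hH, hHy, hHe⟩ := exists_K_base (F₀ := fun d => match d with
      | .y => 1
      | .e j => F.1 (.e j)
      | _ => 0) ⟨by simp, fun s => F.2.1.2 s⟩
    obtain ⟨H', hH', hH'y, hH'e⟩ := exists_K_base (F₀ := fun d => match d with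
      | .y => 1
      | _ => 0) ⟨by simp, fun s => by simp⟩
    -- A = (F - F')/2, B = (H - H')/2, E = (A - B)/2
    have hA := K_comb F.2 hF' (a := 1 / 2) (b := -(1 / 2)) (by norm_num [abs_of_pos])
    have hB := K_comb hH hH' (a := 1 / 2) (b := -(1 / 2)) (by norm_num [abs_of_pos])
    have hE := K_comb hA hB (a := 1 / 2) (b := -(1 / 2)) (by norm_num [abs_of_pos])
    have e1 : z.1 ⟨_, hE⟩ = 0 := by
      refine hcon ⟨_, hE⟩ fun j => ?_
      simp only [hF'e, hHe, hH'e]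
      ring
    have e2 : z.1 ⟨F', hF'⟩ = 0 := hcon ⟨F', hF'⟩ fun j => by simp only [hF'e]
    have e3 : z.1 ⟨H, hH⟩ = 0 := h1 _ (by simp only [hHy]; norm_num)
    have e4 : z.1 ⟨H', hH'⟩ = 0 := h1 _ (by simp only [hH'y]; norm_num)
    have f1 := X_lin z.2 ⟨_, hA⟩ ⟨_, hB⟩ ⟨_, hE⟩ (1 / 2) (-(1 / 2)) (fun d => rfl)
    have f2 := X_lin z.2 F ⟨_, hF'⟩ ⟨_, hA⟩ (1 / 2) (-(1 / 2)) (fun d => rfl)
    have f3 := X_lin z.2 ⟨_, hH⟩ ⟨_, hH'⟩ ⟨_, hB⟩ (1 / 2) (-(1 / 2)) (fun d => rfl)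
    rw [e1, f2, f3, e2, e3, e4] at f1
    simp only [ContinuousMap.zero_apply]
    linarith
  have hnorm : ‖z‖ = ‖(⟨v (.e i), v_mem_X _⟩ : X)‖ := Φ.norm_map _
  have h0 : ‖z‖ = 0 := by
    change ‖z.1‖ = 0
    rw [hzero, norm_zero]
  -- but `v (e i)` is nonzero
  classical
  obtain ⟨G, hG, hGy, hGe⟩ := exists_K_base (F₀ := fun d => match d with
      | .y => 0
      | .e j => if j = i then 1 else 0
      | _ => 0) ⟨by simp, fun s => by
        simp only [apply_ite abs, abs_one, abs_zero, Finset.sum_ite_eq']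
        split_ifs <;> norm_num⟩
  have h3 : ‖(v (.e i)) ⟨G, hG⟩‖ ≤ ‖v (.e i)‖ :=
    ContinuousMap.norm_coe_le_norm (v (.e i)) ⟨G, hG⟩
  have h4 : ‖v (.e i)‖ = 0 := by
    have : ‖(⟨v (.e i), v_mem_X _⟩ : X)‖ = ‖v (.e i)‖ := rfl
    rw [← this, ← hnorm, h0]
  rw [h4, v_apply] at h3
  simp only [hGe] at h3
  norm_num at h3

/-- No isometry of `X` maps `v (e ∅)` to `v y`. -/
theorem no_isometry (Φ : X ≃ₗᵢ[ℝ] X)
    (hΦ : Φ ⟨v (.e ∅), v_mem_X _⟩ = ⟨v .y, v_mem_X _⟩) : False := by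
  classical
  let z : Set ℝ → X := fun i => Φ ⟨v (.e i), v_mem_X _⟩
  have hP : ∀ i : Set ℝ, ∃ F : K, i ≠ ∅ → ((∀ j, F.1 (.e j) = 0) ∧ (z i).1 F ≠ 0) := by
    intro i
    by_cases hi : i = ∅
    · exact ⟨Classical.arbitrary K, fun h => (h hi).elim⟩
    · obtain ⟨F, hF⟩ := exists_point Φ hΦ i hi
      exact ⟨F, fun _ => hF⟩
  choose P hPP using hP
  have hA := fun i => exists_support (z i).2
  choose A hA1 hA2 hA3 hA4 using hA
  -- enumerate the supports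
  have hen : ∀ i, ∃ a : ℕ → Idx, A i = range a := fun i =>
    (hA1 i).exists_eq_range ⟨_, hA3 i⟩
  choose a ha using hen
  let U : Set Idx := ⋃ i, A i
  have hUcard : #U ≤ #(Set ℝ) := by
    have h1 : U ⊆ range (fun p : Set ℝ × ℕ => a p.1 p.2) := by
      intro x hx
      obtain ⟨i, hi⟩ := mem_iUnion.mp hx
      rw [ha i] at hi
      obtain ⟨n, rfl⟩ := hi
      exact ⟨(i, n), rfl⟩
    calc #U ≤ #(range (fun p : Set ℝ × ℕ => a p.1 p.2)) := Cardinal.mk_le_mk_of_subset h1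
      _ ≤ #(Set ℝ × ℕ) := Cardinal.mk_range_le
      _ = #(Set ℝ) * ℵ₀ := by simp
      _ ≤ #(Set ℝ) := by
          rw [Cardinal.mul_aleph0_eq (Cardinal.aleph0_le_mk (Set ℝ))]
  obtain ⟨ι0⟩ : Nonempty (U ↪ Set ℝ) := by
    rw [Cardinal.le_def] at hUcard
    exact hUcard
  let ι : Idx → Set ℝ := fun d => if h : d ∈ U then ι0 ⟨d, h⟩ else ∅
  have hι : InjOn ι U := by
    intro x hx x' hx' hxy
    simp only [ι, dif_pos hx, dif_pos hx'] at hxy
    exact congrArg Subtype.val (ι0.injective hxy)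
  have hcode : ∀ i, ∃ q : Code, ∀ x ∈ A i, dec ι q x = (P i).1 x := fun i =>
    exists_code ι (hA1 i) ⟨_, hA3 i⟩ (hι.mono (subset_iUnion A i)) _
  choose q hq using hcode
  have hlev : ∀ i : Set ℝ, ∃ n : ℕ, i ≠ ∅ → 1 / ((n : ℝ) + 1) < |(z i).1 (P i)| := by
    intro i
    by_cases hi : i = ∅
    · exact ⟨0, fun h => (h hi).elim⟩
    · obtain ⟨n, hn⟩ := exists_nat_one_div_lt (abs_pos.mpr (hPP i hi).2)
      exact ⟨n, fun _ => hn⟩
  choose lev hlev using hlev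
  have hcard : #(Code × ℕ) < #(Set ℝ) := by
    refine mk_code.trans_lt ?_
    rw [Cardinal.mk_set, Cardinal.mk_real]
    exact Cardinal.cantor _
  obtain ⟨⟨q0, n0⟩, hinf⟩ := Cardinal.exists_infinite_fiber
    (fun i : Set ℝ => ((q i, lev i) : Code × ℕ)) hcard
  have hinf' : ((fun i : Set ℝ => ((q i, lev i) : Code × ℕ)) ⁻¹' {(q0, n0)}).Infinite :=
    Set.infinite_coe_iff.mp hinf
  obtain ⟨s, hs, hscard⟩ := (hinf'.sdiff (Set.finite_singleton ∅)).exists_subset_card_eq (n0 + 2)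
  have hsne : ∅ ∉ s := fun h => (hs h).2 rfl
  have hs0 : ∀ i ∈ s, i ≠ ∅ := fun i hi h => hsne (h ▸ hi)
  have hqs : ∀ i ∈ s, q i = q0 := fun i hi => by
    have := (hs hi).1
    simp only [mem_preimage, mem_singleton_iff, Prod.mk.injEq] at this
    exact this.1
  have hls : ∀ i ∈ s, lev i = n0 := fun i hi => by
    have := (hs hi).1
    simp only [mem_preimage, mem_singleton_iff, Prod.mk.injEq] at this
    exact this.2
  -- the amalgamated functional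
  let F₀ : Idx → ℝ := fun d => match d with
    | .e _ => 0
    | .y => dec ι q0 .y
    | .ext D c => dec ι q0 (.ext D c)
  have hF₀ : ∀ i ∈ s, ∀ x ∈ A i, F₀ x = (P i).1 x := by
    intro i hi x hx
    cases x with
    | e j => exact ((hPP i (hs0 i hi)).1 j).symm
    | y => rw [← hq i _ hx, hqs i hi]
    | ext D c => rw [← hq i _ hx, hqs i hi]
  have hsnonempty : s.Nonempty := by
    rw [← Finset.card_pos, hscard]; omega
  obtain ⟨i0, hi0⟩ := hsnonempty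
  have hb : BaseOK F₀ := by
    constructor
    · rw [hF₀ i0 hi0 _ (hA3 i0)]
      exact (P i0).2.1.1
    · intro t
      simp [F₀]
  let B : Set Idx := ⋃ i : s, A i
  have hB : Hered B := hered_iUnion _ fun i => hA2 i
  have hHer : ∀ d ∈ B, Her d F₀ := by
    intro d hd
    obtain ⟨⟨i, hi⟩, hd⟩ := mem_iUnion.mp hd
    exact her_congr (hA2 i) (fun x hx => (hF₀ i hi x hx).symm) d hd ((P i).2.2 d)
  let F : K := ⟨extend B F₀, extend_mem_K hB hb hHer⟩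
  have hzF : ∀ i ∈ s, (z i).1 F = (z i).1 (P i) := by
    intro i hi
    refine hA4 i F (P i) fun d hd => ?_
    have : F.1 d = F₀ d := extend_of_mem _ _ _ (mem_iUnion.2 ⟨⟨i, hi⟩, hd⟩)
    rw [this, hF₀ i hi d hd]
  have h1 := key_ineq Φ hΦ F s hsne
  have h2 : ∑ i ∈ s, |(z i).1 F| ≥ ∑ i ∈ s, 1 / ((n0 : ℝ) + 1) := by
    refine Finset.sum_le_sum fun i hi => ?_
    rw [hzF i hi]
    have := hlev i (hs0 i hi)
    rw [hls i hi] at this
    exact this.le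
  rw [Finset.sum_const, hscard, nsmul_eq_mul] at h2
  have h3 : ((n0 + 2 : ℕ) : ℝ) * (1 / ((n0 : ℝ) + 1)) > 1 := by
    rw [mul_one_div, gt_iff_lt, one_lt_div (by positivity)]
    push_cast
    linarith
  have h4 : 0 ≤ |F.1 .y| := abs_nonneg _
  have h5 : ∑ i ∈ s, |(z i).1 F| ≤ 1 := by
    have : ∑ i ∈ s, |(z i).1 F| = ∑ i ∈ s, |(Φ ⟨v (.e i), v_mem_X _⟩ : X).1 F| := rfl
    rw [this]
    linarith
  linarith

end Pool.Agent.MP_9991fb_an
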