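import Pool.Agent.MP_9991fb_an.Base

set_option autoImplicit false

open Set Filter Topology

namespace Pool.Agent.MP_9991fb_an

/-- Evaluation at a node. -/
noncomputable def v (d : Idx) : C(K, ℝ) := 
  ⟨fun F => F.1 d, (continuous_apply d).comp continuous_subtype_val⟩

theorem v_apply (d : Idx) (F : K) : v d F = F.1 d := rfl

/-- The space. -/
noncomputable def X : Submodule ℝ C(K, ℝ) := (Submodule.span ℝ (Set.range v)).topologicalClosure

theorem v_mem_X (d : Idx) : v d ∈ X :=
  Submodule.le_topologicalClosure _ (Submodule.subset_span ⟨d, rfl⟩)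

theorem isClosed_X : IsClosed (X : Set C(K, ℝ)) := Submodule.isClosed_topologicalClosure _

instance : CompleteSpace X := isClosed_X.completeSpace_coe

theorem lc_apply (w : Idx →₀ ℝ) (F : K) :
    Finsupp.linearCombination ℝ v w F = w.sum fun d x => x * F.1 d := by
  rw [Finsupp.linearCombination_apply, Finsupp.sum, Finsupp.sum, ContinuousMap.sum_apply]
  rfl

theorem exists_approx {x : C(K, ℝ)} (hx : x ∈ X) {ε : ℝ} (hε : 0 < ε) :
    ∃ w : Idx →₀ ℝ, ‖Finsupp.linearCombination ℝ v w - x‖ ≤ ε := by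
  have h : x ∈ closure ((Submodule.span ℝ (Set.range v) : Submodule ℝ C(K, ℝ)) :
      Set C(K, ℝ)) := hx
  obtain ⟨z, hz, hd⟩ := Metric.mem_closure_iff.mp h ε hε
  obtain ⟨w, hw⟩ := (Finsupp.mem_span_range_iff_exists_finsupp).mp hz
  refine ⟨w, ?_⟩
  rw [Finsupp.linearCombination_apply, hw, ← dist_eq_norm, dist_comm]
  exact hd.le

/-- Elements of `X` are affine on `K`. -/
def LinSub : Submodule ℝ C(K, ℝ) where
  carrier := {x | ∀ (F G H : K) (a b : ℝ), (∀ d, H.1 d = a * F.1 d + b * G.1 d) →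
    x H = a * x F + b * x G}
  add_mem' := by
    intro x z hx hz F G H a b h
    simp only [ContinuousMap.add_apply, hx F G H a b h, hz F G H a b h]
    ring
  zero_mem' := by
    intro F G H a b h
    simp
  smul_mem' := by
    intro r x hx F G H a b h
    simp only [ContinuousMap.smul_apply, hx F G H a b h, smul_eq_mul]
    ring

theorem isClosed_linSub : IsClosed (LinSub : Set C(K, ℝ)) := by
  have : (LinSub : Set C(K, ℝ)) = ⋂ (F : K) (G : K) (H : K) (a : ℝ) (b : ℝ)
      (_ : ∀ d, H.1 d = a * F.1 d + b * G.1 d), {x : C(K, ℝ) | x H = a * x F + b * x G} := by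
    ext x
    simp [LinSub]
  rw [this]
  refine isClosed_iInter fun F => isClosed_iInter fun G => isClosed_iInter fun H =>
    isClosed_iInter fun a => isClosed_iInter fun b => isClosed_iInter fun _ => ?_
  refine isClosed_eq ?_ ?_
  · exact ContinuousEvalConst.continuous_eval_const H
  · exact ((ContinuousEvalConst.continuous_eval_const F).const_mul a).add
      ((ContinuousEvalConst.continuous_eval_const G).const_mul b)

theorem X_le_linSub : X ≤ LinSub := by
  refine Submodule.topologicalClosure_minimal _ ?_ isClosed_linSub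
  rw [Submodule.span_le]
  rintro _ ⟨d, rfl⟩ F G H a b h
  exact h d

theorem X_lin {x : C(K, ℝ)} (hx : x ∈ X) (F G H : K) (a b : ℝ)
    (h : ∀ d, H.1 d = a * F.1 d + b * G.1 d) : x H = a * x F + b * x G :=
  X_le_linSub hx F G H a b h

/-- Simultaneous representation of finitely many vectors. -/
theorem exists_rep {n : ℕ} (s : Fin n → C(K, ℝ)) (hs : ∀ k, s k ∈ X) :
    ∃ (c : ℕ → Idx) (a : Fin n → ℕ → (ℕ →₀ ℝ)), ∀ k m (F : K),
      |((a k m).sum fun l x => x * F.1 (c l)) - s k F| ≤ (1 / 2) ^ m := by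
  have h := fun (k : Fin n) (m : ℕ) =>
    exists_approx (hs k) (ε := (1 / 2) ^ m) (by positivity)
  choose w hw using h
  let U : Set Idx := {Idx.y} ∪ ⋃ (k : Fin n) (m : ℕ), ((w k m).support : Set Idx)
  have hU : U.Countable := (countable_singleton _).union
    (countable_iUnion fun k => countable_iUnion fun m => (Finset.countable_toSet _))
  have hne : U.Nonempty := ⟨Idx.y, Or.inl rfl⟩
  obtain ⟨c, hc⟩ := hU.exists_eq_range hne
  refine ⟨c, fun k m => (w k m).mapDomain (Function.invFun c), fun k m F => ?_⟩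
  rw [Finsupp.sum_mapDomain_index (by simp) (by intro l x y; ring)]
  have h1 : ((w k m).sum fun d x => x * F.1 (c (Function.invFun c d))) =
      (w k m).sum fun d x => x * F.1 d := by
    refine Finsupp.sum_congr fun d hd => ?_
    have : d ∈ range c := by
      rw [← hc]
      exact Or.inr (mem_iUnion.2 ⟨k, mem_iUnion.2 ⟨m, hd⟩⟩)
    rw [Function.invFun_eq (f := c) this]
  rw [h1, ← lc_apply]
  have := (ContinuousMap.norm_coe_le_norm
    (Finsupp.linearCombination ℝ v (w k m) - s k) F).trans (hw k m)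
  simpa using this

/-- Values only depend on a countable hereditary set of nodes. -/
theorem exists_support {x : C(K, ℝ)} (hx : x ∈ X) :
    ∃ A : Set Idx, A.Countable ∧ Hered A ∧ Idx.y ∈ A ∧
      ∀ F G : K, (∀ d ∈ A, F.1 d = G.1 d) → x F = x G := by
  obtain ⟨c, a, h⟩ := exists_rep (fun _ : Fin 1 => x) (fun _ => hx)
  refine ⟨Sub Idx.y ∪ ⋃ l, Sub (c l),
    (sub_countable _).union (countable_iUnion fun l => sub_countable _),
    hered_union (hered_sub _) (hered_iUnion _ fun l => hered_sub _), Or.inl (self_mem_sub _), ?_⟩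
  intro F G hFG
  have h1 : ∀ l, F.1 (c l) = G.1 (c l) := fun l =>
    hFG _ (Or.inr (mem_iUnion.2 ⟨l, self_mem_sub _⟩))
  have h2 : ∀ m : ℕ, |x F - x G| ≤ 2 * (1 / 2) ^ m := by
    intro m
    have hF := h 0 m F
    have hG := h 0 m G
    have : ((a 0 m).sum fun l x => x * F.1 (c l)) = (a 0 m).sum fun l x => x * G.1 (c l) :=
      Finsupp.sum_congr fun l _ => by rw [h1 l]
    rw [this] at hF
    have e : x F - x G = -(((a 0 m).sum fun l x => x * G.1 (c l)) - x F) +
      (((a 0 m).sum fun l x => x * G.1 (c l)) - x G) := by ring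
    rw [e]
    refine (abs_add_le _ _).trans ?_
    rw [abs_neg]
    linarith
  have h3 : Tendsto (fun m : ℕ => 2 * (1 / 2 : ℝ) ^ m) atTop (𝓝 0) := by
    have := (tendsto_pow_atTop_nhds_zero_of_lt_one (r := (1 / 2 : ℝ)) (by norm_num)
      (by norm_num)).const_mul 2
    simpa using this
  have h4 : |x F - x G| ≤ 0 := ge_of_tendsto' h3 h2
  exact sub_eq_zero.mp (abs_eq_zero.mp (le_antisymm h4 (abs_nonneg _)))

/-! ### Hahn-Banach lemmas -/

theorem ext_one {E : Type*} [AddCommGroup E] [Module ℝ E] (p : Seminorm ℝ (E × ℝ))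
    (L : E →ₗ[ℝ] ℝ) (h : ∀ α, L α ≤ p (α, 0)) :
    ∃ r : ℝ, ∀ α t, |L α + t * r| ≤ p (α, t) := by
  let D : Submodule ℝ (E × ℝ) := LinearMap.ker (LinearMap.snd ℝ E ℝ)
  let f : (E × ℝ) →ₗ.[ℝ] ℝ := ⟨D, (L ∘ₗ LinearMap.fst ℝ E ℝ) ∘ₗ D.subtype⟩
  obtain ⟨g, hg1, hg2⟩ := exists_extension_of_le_sublinear f p
    (fun c hc x => by rw [map_smul_eq_mul, Real.norm_eq_abs, abs_of_pos hc])
    (fun x y => map_add_le_add p x y)
    (by
      rintro ⟨⟨α, t⟩, hx⟩
      have ht : t = 0 := hx
      subst ht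
      exact h α)
  have hgL : ∀ α, g (α, 0) = L α := fun α => hg1 ⟨(α, 0), rfl⟩
  refine ⟨g (0, 1), fun α t => ?_⟩
  have hval : L α + t * g (0, 1) = g (α, t) := by
    have : ((α, t) : E × ℝ) = (α, 0) + t • ((0, 1) : E × ℝ) := by simp
    rw [this, map_add, map_smul, hgL, smul_eq_mul]
  rw [hval, abs_le]
  constructor
  · have := hg2 (-(α, t))
    rw [map_neg, map_neg_eq_map] at this
    linarith
  · exact hg2 _

theorem exists_support_functional {E : Type*} [AddCommGroup E] [Module ℝ E] (p : Seminorm ℝ E)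
    (x : E) : ∃ g : E →ₗ[ℝ] ℝ, (∀ z, g z ≤ p z) ∧ g x = p x := by
  by_cases hx : x = 0
  · exact ⟨0, fun z => apply_nonneg p z, by simp [hx]⟩
  · obtain ⟨g, hg1, hg2⟩ := exists_extension_of_le_sublinear
      (LinearPMap.mkSpanSingleton x (p x) hx) p
      (fun c hc x => by rw [map_smul_eq_mul, Real.norm_eq_abs, abs_of_pos hc])
      (fun x y => map_add_le_add p x y)
      (by
        rintro ⟨z, hz⟩
        obtain ⟨c, rfl⟩ := Submodule.mem_span_singleton.mp hz
        rw [LinearPMap.mkSpanSingleton'_apply]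
        simp only [map_smul_eq_mul, Real.norm_eq_abs, smul_eq_mul]
        exact mul_le_mul_of_nonneg_right (le_abs_self c) (apply_nonneg p x))
    refine ⟨g, hg2, ?_⟩
    have h := hg1 ⟨x, Submodule.mem_span_singleton_self x⟩
    rw [h]
    exact LinearPMap.mkSpanSingleton_apply ℝ ℝ hx (p x)

end Pool.Agent.MP_9991fb_an
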