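import Pool.Agent.MP_9991fb_an.Gurarii

set_option autoImplicit false

open Set Filter Topology

namespace Pool.Agent.MP_9991fb_an

theorem step.{u} {T : Type u} [NormedAddCommGroup T] [NormedSpace ℝ T] [FiniteDimensional ℝ T]
    (S : Submodule ℝ T) (f : S →ₗᵢ[ℝ] X) (t : T) (ht : t ∉ S) :
    ∃ (S' : Submodule ℝ T) (_ : S < S') (f' : S' →ₗᵢ[ℝ] X),
      ∀ (s : S) (s' : S'), (s : T) = s' → f' s' = f s := by
  let b := Module.finBasis ℝ S
  let J : (Fin (Module.finrank ℝ S) → ℝ) × ℝ →ₗ[ℝ] T :=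
    (S.subtype ∘ₗ b.equivFun.symm.toLinearMap).coprod (LinearMap.toSpanSingleton ℝ T t)
  let p : Seminorm ℝ ((Fin (Module.finrank ℝ S) → ℝ) × ℝ) := (normSeminorm ℝ T).comp J
  have hpJ : ∀ α r, p (α, r) = ‖((b.equivFun.symm α : S) : T) + r • t‖ := by
    intro α r
    simp [p, J]
  have hsum : ∀ α : Fin (Module.finrank ℝ S) → ℝ,
      ((f (b.equivFun.symm α) : X) : C(K, ℝ)) = ∑ k, α k • ((f (b k) : X) : C(K, ℝ)) := by
    intro α
    rw [Module.Basis.equivFun_symm_apply]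
    have h1 : f (∑ k, α k • b k) = ∑ k, α k • f (b k) := by
      change f.toLinearMap (∑ k, α k • b k) = _
      rw [map_sum]
      exact Finset.sum_congr rfl fun k _ => f.toLinearMap.map_smul _ _
    rw [h1, Submodule.coe_sum]
    rfl
  obtain ⟨d, hd⟩ := exists_node (fun k => ((f (b k) : X) : C(K, ℝ))) (fun k => (f (b k)).2) p (by
    intro α
    rw [hpJ, zero_smul, add_zero, ← hsum]
    change ‖b.equivFun.symm α‖ = ‖f (b.equivFun.symm α)‖
    rw [f.norm_map])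
  let f0 : T →ₗ.[ℝ] X := ⟨S, f.toLinearMap⟩
  let f1 := f0.supSpanSingleton t ⟨v d, v_mem_X d⟩ ht
  have hlt : S < f1.domain := by
    rw [LinearPMap.domain_supSpanSingleton]
    refine lt_of_le_of_ne le_sup_left ?_
    intro h
    apply ht
    change t ∈ S
    have h2 : t ∈ f0.domain ⊔ Submodule.span ℝ {t} :=
      Submodule.mem_sup_right (Submodule.mem_span_singleton_self t)
    rw [← h] at h2
    exact h2
  have hval : ∀ (s : S) (r : ℝ) (h : (s : T) + r • t ∈ f1.domain),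
      f1 ⟨(s : T) + r • t, h⟩ = f s + r • (⟨v d, v_mem_X d⟩ : X) := by
    intro s r h
    exact LinearPMap.supSpanSingleton_apply_mk f0 t _ ht s s.2 r
  have hiso : ∀ z : f1.domain, ‖f1.toFun z‖ = ‖z‖ := by
    rintro ⟨z, hz⟩
    have hz' := hz
    rw [LinearPMap.domain_supSpanSingleton] at hz'
    obtain ⟨s, hs, w, hw, rfl⟩ := Submodule.mem_sup.mp hz'
    obtain ⟨r, rfl⟩ := Submodule.mem_span_singleton.mp hw
    have h1 := hval ⟨s, hs⟩ r hz
    change ‖f1 ⟨s + r • t, hz⟩‖ = ‖s + r • t‖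
    rw [h1]
    change ‖((f ⟨s, hs⟩ : X) : C(K, ℝ)) + r • v d‖ = _
    have h2 : (⟨s, hs⟩ : S) = b.equivFun.symm (b.equivFun ⟨s, hs⟩) := by simp
    rw [h2, hsum, hd, hpJ, ← h2]
  refine ⟨f1.domain, hlt, ⟨f1.toFun, hiso⟩, ?_⟩
  intro s s' hss
  have h0 : (s : T) + (0 : ℝ) • t ∈ f1.domain := by
    rw [zero_smul, add_zero, hss]; exact s'.2
  have h1 : f1 ⟨(s : T) + (0 : ℝ) • t, h0⟩ = f s := by
    rw [hval s 0 h0, zero_smul, add_zero]
  rw [← h1]
  change f1 s' = f1 ⟨(s : T) + (0 : ℝ) • t, h0⟩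
  congr 1
  apply Subtype.ext
  simp [hss]

theorem extendIso.{u} {T : Type u} [NormedAddCommGroup T] [NormedSpace ℝ T]
    [FiniteDimensional ℝ T] (S : Submodule ℝ T) :
    ∀ f : S →ₗᵢ[ℝ] X, ∃ g : T →ₗᵢ[ℝ] X, ∀ s : S, g s = f s := by
  induction S using WellFoundedGT.induction with
  | ind S ih =>
    intro f
    by_cases hS : S = ⊤
    · subst hS
      refine ⟨f.comp (LinearIsometryEquiv.ofTop T ⊤ rfl).symm.toLinearIsometry, fun s => ?_⟩
      rfl
    · obtain ⟨t, ht⟩ : ∃ t, t ∉ S := by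
        by_contra h
        push Not at h
        exact hS (eq_top_iff.mpr fun t _ => h t)
      obtain ⟨S', hlt, f', hf'⟩ := step S f t ht
      obtain ⟨g, hg⟩ := ih S' hlt f'
      refine ⟨g, fun s => ?_⟩
      have hs : (s : T) ∈ S' := hlt.le s.2
      have := hg ⟨s, hs⟩
      rw [← hf' s ⟨s, hs⟩ rfl, ← this]

end Pool.Agent.MP_9991fb_an
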